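import Pool.Agent.Helper79.TLN.StN

/-!
# Project TL, low levels, module EV0: the even coefficients vanish
-/

set_option autoImplicit false

namespace Pool.Agent.Helper7.TLN

open Pool.Agent.Helper79.TLN Pool.Agent.Helper28.LV Pool.Agent.Helper28.WK Pool.Agent.Helper14.WK
open Pool.Agent.Helper4.TL
open Pool.Agent.Helper14.CV (G0 Homog EqC act)
open Filter Topology

/-- A power series which vanishes on the punctured unit disc has vanishing coefficients. -/
private lemma coeff_zero (c : ℕ → ℂ)
    (h : ∀ q : ℂ, q ≠ 0 → ‖q‖ < 1 → HasSum (fun m : ℕ => c m * q ^ m) 0) :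
    ∀ m : ℕ, m ≠ 0 → c m = 0 := by
  intro m hm
  set p : FormalMultilinearSeries ℂ ℂ ℂ := FormalMultilinearSeries.ofScalars ℂ c with hp
  have hpc : ∀ n, p.coeff n = c n := by
    intro n
    rw [hp]
    simp [FormalMultilinearSeries.coeff_ofScalars]
  set g : ℂ → ℂ := fun q => if q = 0 then c 0 else 0 with hg
  have hgp : HasFPowerSeriesAt g p 0 := by
    rw [hasFPowerSeriesAt_iff]
    have hball : Metric.ball (0 : ℂ) 1 ∈ 𝓝 (0 : ℂ) := Metric.ball_mem_nhds _ one_pos
    filter_upwards [hball] with z hz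
    simp only [Metric.mem_ball, dist_zero_right] at hz
    simp only [hpc, smul_eq_mul, zero_add]
    by_cases h0 : z = 0
    · subst h0
      have h1 : HasSum (fun n : ℕ => (0 : ℂ) ^ n * c n) ((0 : ℂ) ^ 0 * c 0) := by
        refine hasSum_single 0 ?_
        intro n hn
        rw [zero_pow hn, zero_mul]
      simpa [hg] using h1
    · have h1 := h z h0 hz
      have h2 : (fun n : ℕ => z ^ n * c n) = fun n : ℕ => c n * z ^ n := by
        funext n
        ring
      rw [h2]
      simpa [hg, h0] using h1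
  have hcont : ContinuousAt g 0 := hgp.continuousAt
  have h0k : c 0 = 0 := by
    have h1 : Tendsto g (𝓝[≠] 0) (𝓝 (g 0)) := hcont.tendsto.mono_left nhdsWithin_le_nhds
    have h2 : Tendsto g (𝓝[≠] 0) (𝓝 0) := by
      refine (tendsto_const_nhds (x := (0 : ℂ))).congr' ?_
      filter_upwards [self_mem_nhdsWithin] with z hz
      have hz' : z ≠ 0 := hz
      simp [hg, hz']
    have h3 := tendsto_nhds_unique h1 h2
    simpa [hg] using h3
  have hgk : g = fun _ => 0 := by
    funext z
    by_cases hz : z = 0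
    · simp [hg, hz, h0k]
    · simp [hg, hz]
  rw [hgk] at hgp
  have h3 := hgp.eq_formalMultilinearSeries (hasFPowerSeriesAt_const (𝕜 := ℂ) (c := (0 : ℂ)) (e := 0))
  have h4 : p.coeff m = 0 := by
    rw [h3]
    unfold FormalMultilinearSeries.coeff
    rw [constFormalMultilinearSeries_apply_of_nonzero hm]
    rfl
  rw [← hpc m, h4]

/-- EV0. -/
theorem hEv : SNEv := by
  intro h1 N hN k f H
  have hF : ∀ z : ℂ, 0 < z.im →
      HasSum (fun m : ℕ => fcK f m * Complex.exp (2 * Real.pi * Complex.I * m * z)) (fzK f z) :=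
    fun z hz => (h1 N hN k f z hz).2.2.1
  have h0 : fcK f 0 = 0 := (h1 N hN k f Complex.I (by simp)).1
  obtain ⟨c, hc⟩ : ∃ c : ℕ → ℂ, c = fun r => fcK f r * (1 + (-1 : ℂ) ^ r) := ⟨_, rfl⟩
  have hser : ∀ q : ℂ, q ≠ 0 → ‖q‖ < 1 → HasSum (fun m : ℕ => c m * q ^ m) 0 := by
    intro q hq0 hq1
    obtain ⟨z, hz⟩ : ∃ z : ℂ, z = Complex.log q / (2 * Real.pi * Complex.I) := ⟨_, rfl⟩
    have hzq : Complex.exp (2 * Real.pi * Complex.I * z) = q := by
      rw [hz, mul_div_cancel₀ _ Complex.two_pi_I_ne_zero, Complex.exp_log hq0]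
    have hzim : 0 < z.im := by
      by_contra hcon
      push Not at hcon
      have h2 : ‖q‖ = Real.exp (-(2 * Real.pi * z.im)) := by
        rw [← hzq, Complex.norm_exp]
        congr 1
        simp [Complex.mul_re, Complex.mul_im]
      have h3 : (1 : ℝ) ≤ Real.exp (-(2 * Real.pi * z.im)) := by
        apply Real.one_le_exp
        have := Real.pi_pos
        nlinarith [mul_nonneg this.le (neg_nonneg.mpr hcon)]
      linarith
    have hexp : ∀ m : ℕ, Complex.exp (2 * Real.pi * Complex.I * m * z) = q ^ m := by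
      intro m
      rw [← hzq, ← Complex.exp_nat_mul]
      congr 1
      ring
    have hexp2 : ∀ m : ℕ, Complex.exp (2 * Real.pi * Complex.I * m * (z + ((1 : ℕ) : ℂ) / 2)) =
        q ^ m * (-1) ^ m := by
      intro m
      have e : 2 * Real.pi * Complex.I * m * (z + ((1 : ℕ) : ℂ) / 2) =
          2 * Real.pi * Complex.I * m * z + (m : ℂ) * (Real.pi * Complex.I) := by
        push_cast
        ring
      rw [e, Complex.exp_add, hexp, Complex.exp_nat_mul, Complex.exp_pi_mul_I]
    have him : 0 < (z + ((1 : ℕ) : ℂ) / 2).im := by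
      have e : (z + ((1 : ℕ) : ℂ) / 2).im = z.im := by
        simp [Complex.add_im]
      rw [e]
      exact hzim
    have s1 := hF z hzim
    have s2 := hF (z + ((1 : ℕ) : ℂ) / 2) him
    have s3 := s1.add s2
    have hsum := H z hzim
    rw [Finset.sum_range_succ, Finset.sum_range_one] at hsum
    have e0 : z + ((0 : ℕ) : ℂ) / 2 = z := by simp
    rw [e0] at hsum
    rw [hsum] at s3
    have e1 : (fun m : ℕ => c m * q ^ m) = fun m : ℕ =>
        fcK f m * Complex.exp (2 * Real.pi * Complex.I * m * z) +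
          fcK f m * Complex.exp (2 * Real.pi * Complex.I * m * (z + ((1 : ℕ) : ℂ) / 2)) := by
      funext m
      rw [hexp, hexp2, hc]
      ring
    rw [e1]
    exact s3
  intro M hM
  rcases Nat.eq_zero_or_pos M with hm | hm
  · rw [hm]
    exact h0
  · have h2 := coeff_zero c hser M hm.ne'
    rw [hc] at h2
    simp only at h2
    rw [hM.neg_one_pow] at h2
    rcases mul_eq_zero.1 h2 with h3 | h3
    · exact h3
    · norm_num at h3

end Pool.Agent.Helper7.TLN
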